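import Mathlib
import Pool.Agent.Helper43.RK.StI

/-!
# Project RK, module IZ2: `Z` is central of order at most two
-/

set_option autoImplicit false

namespace Pool.Agent.Helper13.RK

open Pool.Agent.Helper43.RK

/-- module IZ2 -/
theorem hIZ2 : StIZ2 := by
  intro G _ g a t k l hk hag hgt hW1 ht H
  obtain ⟨W, hW⟩ : ∃ W : G, W = (g ^ 4) ^ (k - 1) := ⟨_, rfl⟩
  rw [← hW] at hW1 H ⊢
  have hWg' : W = g ^ (4 * (k - 1)) := by rw [hW, pow_mul]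
  -- `W` commutes with `g`
  have hWg : Commute W g := by rw [hWg']; exact (Commute.refl g).pow_left _
  -- `W` commutes with `t`
  have hpow : ∀ m : ℕ, ((g ^ 4) ^ m)⁻¹ * t * (g ^ 4) ^ m = t ^ (2 ^ m) := by
    intro m
    induction m with
    | zero => simp
    | succ m ih =>
      have h1 : ((g ^ 4) ^ (m + 1))⁻¹ * t * (g ^ 4) ^ (m + 1)
          = (g ^ 4)⁻¹ * (((g ^ 4) ^ m)⁻¹ * t * (g ^ 4) ^ m) * g ^ 4 := by
        rw [pow_succ (g ^ 4) m]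
        group
      have h2 : (g ^ 4)⁻¹ * t ^ (2 ^ m) * g ^ 4 = ((g ^ 4)⁻¹ * t * g ^ 4) ^ (2 ^ m) := by
        have := conj_pow (i := 2 ^ m) (a := (g ^ 4)⁻¹) (b := t)
        rw [inv_inv] at this
        exact this.symm
      rw [h1, ih, h2, hgt, ← pow_mul, pow_succ, mul_comm]
  have htt : t ^ (2 ^ (k - 1)) = t := by
    have h1 : 2 ^ (k - 1) = 2 ^ (k - 1) - 1 + 1 := by
      have : 0 < 2 ^ (k - 1) := by positivity
      omega
    rw [h1, pow_succ, ht, one_mul]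
  have hWt : Commute W t := by
    have h := hpow (k - 1)
    rw [htt, ← hW] at h
    have : t * W = W * t := by
      calc t * W = W * (W⁻¹ * t * W) := by group
        _ = W * t := by rw [h]
    exact this.symm
  -- `W a = a W⁻¹`
  have haW : a⁻¹ * W * a = W⁻¹ := by
    have h1 : a⁻¹ * W * a = (a⁻¹ * g * a) ^ (4 * (k - 1)) := by
      have := conj_pow (i := 4 * (k - 1)) (a := a⁻¹) (b := g)
      rw [inv_inv] at this
      rw [this, ← hWg']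
    have h2 : a⁻¹ * W * a = W ^ k := by
      rw [h1, hag, ← pow_mul, mul_comm, pow_mul, ← hWg']
    rw [h2]
    have h3 : W ^ k * W = 1 := by rw [← pow_succ]; exact hW1
    exact eq_inv_of_mul_eq_one_left h3
  have hWa : W * a = a * W⁻¹ := by
    calc W * a = a * (a⁻¹ * W * a) := by group
      _ = a * W⁻¹ := by rw [haW]
  have hWa' : W⁻¹ * a = a * W := by
    calc W⁻¹ * a = W⁻¹ * (a * W⁻¹) * W := by group
      _ = W⁻¹ * (W * a) * W := by rw [hWa]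
      _ = a * W := by group
  obtain ⟨x, hx⟩ : ∃ x : G, x = t ^ l := ⟨_, rfl⟩
  have hWx : Commute W x := by rw [hx]; exact hWt.zpow_right l
  rw [zpow_neg, ← hx] at H
  have e1 : W * x⁻¹ = x⁻¹ * W := hWx.inv_right.eq
  have e2 : x * W⁻¹ = W⁻¹ * x := (hWx.inv_left.eq).symm
  have e3 : W⁻¹ * t⁻¹ = t⁻¹ * W⁻¹ := (hWt.inv_inv).eq
  have e4 : t * W⁻¹ = W⁻¹ * t := (hWt.inv_left.eq).symm
  have hL : W * (x⁻¹ * (a * W⁻¹) * x) * W⁻¹ = x⁻¹ * (a * W⁻¹) * x * (W⁻¹ * W⁻¹) := by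
    calc W * (x⁻¹ * (a * W⁻¹) * x) * W⁻¹ = (W * x⁻¹) * a * W⁻¹ * x * W⁻¹ := by group
      _ = (x⁻¹ * W) * a * W⁻¹ * x * W⁻¹ := by rw [e1]
      _ = x⁻¹ * (W * a) * W⁻¹ * x * W⁻¹ := by group
      _ = x⁻¹ * (a * W⁻¹) * W⁻¹ * x * W⁻¹ := by rw [hWa]
      _ = x⁻¹ * (a * W⁻¹) * (W⁻¹ * x) * W⁻¹ := by group
      _ = x⁻¹ * (a * W⁻¹) * (x * W⁻¹) * W⁻¹ := by rw [e2]
      _ = _ := by group
  have hR : W * (a * (t⁻¹ * a * t)) * W⁻¹ = a * (t⁻¹ * a * t) := by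
    calc W * (a * (t⁻¹ * a * t)) * W⁻¹ = (W * a) * t⁻¹ * a * (t * W⁻¹) := by group
      _ = (a * W⁻¹) * t⁻¹ * a * (W⁻¹ * t) := by rw [hWa, e4]
      _ = a * (W⁻¹ * t⁻¹) * a * W⁻¹ * t := by group
      _ = a * (t⁻¹ * W⁻¹) * a * W⁻¹ * t := by rw [e3]
      _ = a * t⁻¹ * (W⁻¹ * a) * W⁻¹ * t := by group
      _ = a * t⁻¹ * (a * W) * W⁻¹ * t := by rw [hWa']
      _ = _ := by group
  have hWW : W⁻¹ * W⁻¹ = 1 := by
    have h : x⁻¹ * (a * W⁻¹) * x * (W⁻¹ * W⁻¹) = x⁻¹ * (a * W⁻¹) * x * 1 := by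
      rw [← hL, mul_one, H, hR]
    exact mul_left_cancel h
  have hW2 : W * W = 1 := by
    have := congrArg (fun y => y⁻¹) hWW
    simpa using this
  have hinv : W⁻¹ = W := inv_eq_of_mul_eq_one_left hW2
  refine ⟨hW2, ?_, hWt.eq, hWg.eq⟩
  rw [hWa, hinv]

end Pool.Agent.Helper13.RK
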